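import Pool.Agent.Lib.Maynard.Asym

/-!
# PP6. The Bombieri-Vinogradov error, uniform in the modulus `W` and in the shift `s`

Variant of `Maynard.ev_err`: the `W`-trick modulus may depend on the tuple (at most a fixed power
of `log N`) and the shift may be anything up to `N`; the right side carries the factor `1 / W`.
-/

open Finset Filter

namespace Pool.Agent.PP

open Pool.Agent.Maynard

/-- The error term is negligible, uniformly for `1 ≤ W ≤ (log N) ^ D` and `s ≤ N`, with any
power `E` of the logarithm saved. -/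
lemma ev_err_unif {θ : ℝ} (hBV : BVHyp θ) (k D E : ℕ) :
    ∀ᶠ N : ℕ in atTop, ∀ W s : ℕ, 0 < W → (W:ℝ) ≤ (Real.log N) ^ D → s ≤ N →
      ∀ (P : Finset ℕ) (K0 R : ℕ), Setting P W K0 R → R ≤ N →
      W * (R * R) ≤ N → W * (R * R) ≤ ⌊((3 * N : ℕ):ℝ) ^ θ⌋₊ →
      L0 P k ^ 2 * ∑ B : P → Bool, FB P N s W (R * R) B * pm (fun _ => (2 * (k:ℝ) + 1) ^ 2) B ≤
        N / (W * (Real.log N) ^ E) := by
  set c : ℕ := (2 * k + 1) ^ 2 with hc
  set a : ℕ := 20 * k + 10 * c ^ 2 + 2 + D + E with ha
  set A : ℕ := a + 20 * k + 1 + D + E with hA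
  obtain ⟨C, hC, hsum⟩ := sum_EE_le hBV A
  filter_upwards [ev_LL_le, ev_log_ge (5 + 3 * C), ev_log_ge 2, eventually_ge_atTop 3]
    with N hLL hlog5 hlog2 hN3 W s hW hWD hs P K0 R hS hRN hWN hWθ
  set x := Real.log N with hx
  have hx0 : 0 < x := by linarith
  have hN0 : (0:ℝ) < N := by exact_mod_cast (show 0 < N by omega)
  have hW0 : (0:ℝ) < W := by exact_mod_cast hW
  have hlog3 : Real.log (3 * N : ℕ) ≤ 2 * x := by
    push_cast
    rw [Real.log_mul (by norm_num) hN0.ne']
    have : Real.log 3 ≤ x := Real.log_le_log (by norm_num) (by exact_mod_cast hN3)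
    linarith
  have hlog3' : x ≤ Real.log (3 * N : ℕ) := by
    refine Real.log_le_log hN0 ?_
    push_cast
    linarith
  have hLLR : LL R ≤ x ^ 5 := (LL_mono hRN).trans hLL
  have hLL1 := LL_ge_one R
  have hL0 : L0 P k ≤ x ^ (10 * k) := by
    refine (L0_le hS.prime hS.le).trans ?_
    refine (pow_le_pow_left₀ (by linarith) hLLR (2 * k)).trans (le_of_eq ?_)
    rw [← pow_mul]
    congr 1
    ring
  have hL00 := L0_ge_one (k := k) (P := P) (fun p hp => (hS.prime p hp).two_le)
  have hL02 : L0 P k ^ 2 ≤ x ^ (20 * k) := by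
    refine (pow_le_pow_left₀ (by linarith) hL0 2).trans (le_of_eq ?_)
    rw [← pow_mul]
    congr 1
    ring
  have hcc : (2 * (k:ℝ) + 1) ^ 2 = (c:ℝ) := by rw [hc]; push_cast; ring
  rw [hcc]
  have ht : 0 < x ^ a := by positivity
  have h1 := sum_split (P := P) (N := N) (s := s) (W := W) (Y := R * R) c ht
  have h2 := sum_FB_pm_le hS hW (N := N) (s := s) (Y := R * R) (by omega) hs hWN (c ^ 2)
  have h3 := sum_FB_le hS hW (N := N) (s := s) (Y := R * R) hWθ
  have h4 := hsum N s (by omega) hs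
  have h5 : (2 * Real.log (3 * N : ℕ) + 1) * N * LL R ^ (2 * c ^ 2) ≤
      5 * N * x ^ (10 * c ^ 2 + 1) := by
    have e1 : LL R ^ (2 * c ^ 2) ≤ x ^ (10 * c ^ 2) := by
      refine (pow_le_pow_left₀ (by linarith) hLLR _).trans (le_of_eq ?_)
      rw [← pow_mul]
      congr 1
      ring
    calc (2 * Real.log (3 * N : ℕ) + 1) * N * LL R ^ (2 * c ^ 2)
        ≤ (5 * x) * N * x ^ (10 * c ^ 2) := by
          have : 2 * Real.log (3 * N : ℕ) + 1 ≤ 5 * x := by linarith
          have h0 : (0:ℝ) ≤ Real.log (3 * N : ℕ) := Real.log_natCast_nonneg _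
          gcongr
      _ = _ := by rw [pow_succ]; ring
  have h6 : ∑ B : P → Bool, FB P N s W (R * R) B ≤ 3 * C * N / x ^ A := by
    refine (h3.trans h4).trans ?_
    push_cast
    have e1 : x ^ A ≤ Real.log (3 * (N:ℝ)) ^ A := by
      refine pow_le_pow_left₀ hx0.le ?_ A
      push_cast at hlog3'
      exact hlog3'
    have e2 : C * (3 * (N:ℝ)) = 3 * C * N := by ring
    rw [e2]
    exact div_le_div_of_nonneg_left (by positivity) (by positivity) e1
  have h7 : ∑ B : P → Bool, FB P N s W (R * R) B * pm (fun _ => (c:ℝ)) B ≤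
      5 * N * x ^ (10 * c ^ 2 + 1) / x ^ a + x ^ a * (3 * C * N / x ^ A) := by
    refine h1.trans (add_le_add ?_ ?_)
    · exact div_le_div_of_nonneg_right (h2.trans h5) ht.le
    · exact mul_le_mul_of_nonneg_left h6 ht.le
  have h8 : 0 ≤ ∑ B : P → Bool, FB P N s W (R * R) B * pm (fun _ => (c:ℝ)) B :=
    Finset.sum_nonneg fun B _ => mul_nonneg (FB_nonneg _ _ _ _ B)
      (pm_nonneg (fun _ _ => Nat.cast_nonneg c) B)
  have hcD : (W:ℝ) * x ^ E ≤ x ^ (D + E) := by
    rw [pow_add]
    exact mul_le_mul_of_nonneg_right hWD (by positivity)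
  calc L0 P k ^ 2 * ∑ B : P → Bool, FB P N s W (R * R) B * pm (fun _ => (c:ℝ)) B
      ≤ x ^ (20 * k) * (5 * N * x ^ (10 * c ^ 2 + 1) / x ^ a + x ^ a * (3 * C * N / x ^ A)) :=
        mul_le_mul hL02 h7 h8 (by positivity)
    _ = (5 + 3 * C) * N / x ^ (D + E + 1) := by
        have e1 : x ^ a = x ^ (20 * k) * x ^ (10 * c ^ 2 + 1) * x ^ (D + E + 1) := by
          rw [ha, ← pow_add, ← pow_add]
          congr 1
          ring
        have e2 : x ^ A = x ^ a * x ^ (20 * k) * x ^ (D + E + 1) := by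
          rw [hA, ← pow_add, ← pow_add]
          congr 1
          ring
        have e3 : x ^ (20 * k) * (5 * N * x ^ (10 * c ^ 2 + 1) / x ^ a) =
            5 * N / x ^ (D + E + 1) := by
          rw [e1]
          field_simp
        have e4 : x ^ (20 * k) * (x ^ a * (3 * C * N / x ^ A)) =
            3 * C * N / x ^ (D + E + 1) := by
          rw [e2]
          field_simp
        rw [mul_add, e3, e4]
        ring
    _ ≤ x * N / x ^ (D + E + 1) := by gcongr
    _ = N / x ^ (D + E) := by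
        rw [pow_succ]
        field_simp
    _ ≤ N / (W * x ^ E) := by
        exact div_le_div_of_nonneg_left hN0.le (by positivity) hcD

end Pool.Agent.PP
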