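import Pool.Agent.Lib.Maynard.Harm

/-!
# PP9. Counting admissible classes

For `W` divisible by `Dm`, shifts `h i` divisible by `Dm` and by every prime `≤ k`, at least
`W (φ(W)/W)^k / (Dm (6k)^k)` classes `a mod W` satisfy `a ≡ c mod Dm` and `(a + h i, W) = 1` for
all `i`.
-/

open Finset

namespace Pool.Agent.PP

open Pool.Agent.Maynard

variable {k : ℕ}

/-- `a < M` with `a ≡ c mod Dm` and all `a + h i` free of the primes in `S` -/
def cls (h : Fin k → ℕ) (Dm c : ℕ) (S : Finset ℕ) (M : ℕ) : Finset ℕ :=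
  (Finset.range M).filter (fun a => a ≡ c [MOD Dm] ∧ ∀ p ∈ S, ∀ i, ¬ p ∣ a + h i)

/-- good lifts of one class -/
def lifts (h : Fin k → ℕ) (M q a : ℕ) : Finset ℕ :=
  (Finset.range q).filter (fun t => ∀ i, ¬ q ∣ a + M * t + h i)

lemma lifts_card {M q : ℕ} (hq : q.Prime) (hM : M.Coprime q) (a : ℕ) (h : Fin k → ℕ) (ν : ℕ)
    (hν : (Finset.univ.image (fun i => (h i : ZMod q))).card ≤ ν) :
    q - ν ≤ (lifts h M q a).card := by
  classical
  have : Fact q.Prime := ⟨hq⟩
  have hMu : (M : ZMod q) ≠ 0 := by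
    intro h0
    rw [ZMod.natCast_eq_zero_iff] at h0
    have := Nat.eq_one_of_dvd_coprimes hM h0 dvd_rfl
    exact hq.one_lt.ne' this
  have hb : ((Finset.range q).filter (fun t => ¬ ∀ i, ¬ q ∣ a + M * t + h i)).card ≤ ν := by
    refine le_trans ?_ hν
    refine Finset.card_le_card_of_injOn (fun t => -((a:ZMod q) + M * t)) ?_ ?_
    · intro t ht
      simp only [Finset.coe_filter, Set.mem_ofPred_eq, not_forall, not_not] at ht
      obtain ⟨_, i, hi⟩ := ht
      rw [Finset.mem_coe, Finset.mem_image]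
      refine ⟨i, Finset.mem_univ _, ?_⟩
      rw [← ZMod.natCast_eq_zero_iff] at hi
      push_cast at hi
      rw [eq_neg_iff_add_eq_zero, add_comm]
      exact hi
    · intro t ht t' ht' heq
      simp only [Finset.coe_filter, Set.mem_ofPred_eq, Finset.mem_range] at ht ht'
      have h1 : (M : ZMod q) * t = M * t' := by
        have := neg_injective heq
        exact add_left_cancel this
      have h2 : (t : ZMod q) = t' := mul_left_cancel₀ hMu h1
      rw [ZMod.natCast_eq_natCast_iff] at h2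
      exact Nat.ModEq.eq_of_lt_of_lt h2 ht.1 ht'.1
  have hc := Finset.card_filter_add_card_filter_not (s := Finset.range q)
    (fun t => ∀ i, ¬ q ∣ a + M * t + h i)
  rw [Finset.card_range] at hc
  unfold lifts
  omega

lemma cls_insert {M q Dm c : ℕ} {S : Finset ℕ} (hq : q.Prime) (hM : M.Coprime q) (hM0 : 0 < M)
    (hSM : ∀ p ∈ S, p ∣ M) (hDM : Dm ∣ M) (h : Fin k → ℕ) (ν : ℕ)
    (hν : (Finset.univ.image (fun i => (h i : ZMod q))).card ≤ ν) :
    (q - ν) * (cls h Dm c S M).card ≤ (cls h Dm c (insert q S) (M * q)).card := by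
  classical
  have h1 : (q - ν) * (cls h Dm c S M).card ≤
      ((cls h Dm c S M).sigma (fun a => lifts h M q a)).card := by
    rw [Finset.card_sigma, mul_comm, ← smul_eq_mul, ← Finset.sum_const]
    exact Finset.sum_le_sum fun a _ => lifts_card hq hM a h ν hν
  refine h1.trans ?_
  refine Finset.card_le_card_of_injOn (fun x => x.1 + M * x.2) ?_ ?_
  · rintro ⟨a, t⟩ hx
    simp only [Finset.coe_sigma, Set.mem_sigma_iff, Finset.mem_coe] at hx
    obtain ⟨ha, ht⟩ := hx
    simp only [cls, Finset.mem_filter, Finset.mem_range] at ha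
    simp only [lifts, Finset.mem_filter, Finset.mem_range] at ht
    obtain ⟨ha1, ha2, ha3⟩ := ha
    obtain ⟨ht1, ht2⟩ := ht
    rw [Finset.mem_coe]
    simp only [cls, Finset.mem_filter, Finset.mem_range]
    refine ⟨?_, ?_, ?_⟩
    · calc a + M * t < M + M * t := by omega
        _ = M * (t + 1) := by ring
        _ ≤ M * q := Nat.mul_le_mul_left M ht1
    · have h2 : M * t ≡ 0 [MOD Dm] := (Nat.modEq_zero_iff_dvd).2 (hDM.mul_right t)
      have h3 := ha2.add h2
      simpa using h3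
    · intro p hp i
      rcases Finset.mem_insert.1 hp with rfl | hp
      · exact ht2 i
      · intro h4
        apply ha3 p hp i
        have h5 : p ∣ M * t := (hSM p hp).mul_right t
        have h6 : a + M * t + h i = (a + h i) + M * t := by ring
        rw [h6] at h4
        exact (Nat.dvd_add_left h5).1 h4
  · rintro ⟨a, t⟩ hx ⟨a', t'⟩ hx' heq
    simp only [Finset.coe_sigma, Set.mem_sigma_iff, Finset.mem_coe, cls, lifts,
      Finset.mem_filter, Finset.mem_range] at hx hx'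
    simp only at heq
    have h2 : a % M = a' % M := by
      have := congrArg (· % M) heq
      simpa [Nat.add_mul_mod_self_left] using this
    rw [Nat.mod_eq_of_lt hx.1.1, Nat.mod_eq_of_lt hx'.1.1] at h2
    subst h2
    have h3 : M * t = M * t' := by omega
    have h4 := Nat.eq_of_mul_eq_mul_left hM0 h3
    subst h4
    rfl

lemma cls_prod {Dm c : ℕ} (hD0 : 0 < Dm) (h : Fin k → ℕ) (ν : ℕ → ℕ) (S : Finset ℕ)
    (hS : ∀ p ∈ S, p.Prime ∧ ¬ p ∣ Dm)
    (hν : ∀ p ∈ S, (Finset.univ.image (fun i => (h i : ZMod p))).card ≤ ν p) :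
    ∏ p ∈ S, (p - ν p) ≤ (cls h Dm c S (Dm * ∏ p ∈ S, p)).card := by
  classical
  induction S using Finset.induction_on with
  | empty =>
    simp only [Finset.prod_empty, mul_one]
    rw [Nat.one_le_iff_ne_zero, Finset.card_ne_zero]
    exact ⟨c % Dm, by
      simp only [cls, Finset.mem_filter, Finset.mem_range, Finset.notMem_empty, false_imp_iff,
        implies_true, and_true]
      exact ⟨Nat.mod_lt _ hD0, Nat.mod_modEq _ _⟩⟩
  | insert q S hqS ih =>
    have hS' : ∀ p ∈ S, p.Prime ∧ ¬ p ∣ Dm := fun p hp => hS p (Finset.mem_insert_of_mem hp)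
    have ih' := ih hS' (fun p hp => hν p (Finset.mem_insert_of_mem hp))
    obtain ⟨hq, hqD⟩ := hS q (Finset.mem_insert_self _ _)
    rw [Finset.prod_insert hqS, Finset.prod_insert hqS]
    have hcop : (Dm * ∏ p ∈ S, p).Coprime q := by
      refine Nat.Coprime.mul_left ?_ ?_
      · exact ((Nat.Prime.coprime_iff_not_dvd hq).2 hqD).symm
      · refine Nat.Coprime.prod_left fun p hp => ?_
        refine (Nat.coprime_primes (hS' p hp).1 hq).2 ?_
        rintro rfl
        exact hqS hp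
    have hpos : 0 < Dm * ∏ p ∈ S, p :=
      Nat.mul_pos hD0 (Finset.prod_pos fun p hp => (hS' p hp).1.pos)
    have h1 := cls_insert (c := c) (S := S) hq hcop hpos
      (fun p hp => (Finset.dvd_prod_of_mem (fun p => p) hp).mul_left Dm)
      (Dvd.intro _ rfl) h (ν q) (hν q (Finset.mem_insert_self _ _))
    have h2 : Dm * (q * ∏ p ∈ S, p) = (Dm * ∏ p ∈ S, p) * q := by ring
    rw [h2]
    exact (Nat.mul_le_mul_left _ ih').trans h1

/-- the admissible classes modulo `W` -/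
def adm (h : Fin k → ℕ) (Dm c W : ℕ) : Finset ℕ :=
  (Finset.range W).filter (fun a => a ≡ c [MOD Dm] ∧ ∀ i, (a + h i).Coprime W)

lemma adm_ge {Dm c W : ℕ} (hW : 0 < W) (hc : c.Coprime Dm) (h : Fin k → ℕ)
    (hD : ∀ i, Dm ∣ h i) (S : Finset ℕ) (hS : S = W.primeFactors.filter (fun p => ¬ p ∣ Dm))
    (L : ℕ) (hL : W = (Dm * ∏ p ∈ S, p) * L) :
    L * (cls h Dm c S (Dm * ∏ p ∈ S, p)).card ≤ (adm h Dm c W).card := by
  classical
  set M := Dm * ∏ p ∈ S, p with hM
  have hM0 : 0 < M := by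
    rcases Nat.eq_zero_or_pos M with h0 | h0
    · rw [h0, zero_mul] at hL; omega
    · exact h0
  rw [← Finset.card_range L, ← Finset.card_product]
  refine Finset.card_le_card_of_injOn (fun x => x.2 + M * x.1) ?_ ?_
  · rintro ⟨l, a⟩ hx
    simp only [Finset.coe_product, Set.mem_prod, Finset.mem_coe, Finset.mem_range, cls,
      Finset.mem_filter] at hx
    obtain ⟨hl, ha1, ha2, ha3⟩ := hx
    rw [Finset.mem_coe]
    simp only [adm, Finset.mem_filter, Finset.mem_range]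
    have hmod : a + M * l ≡ c [MOD Dm] := by
      have h2 : M * l ≡ 0 [MOD Dm] := (Nat.modEq_zero_iff_dvd).2 ((Dvd.intro _ rfl).mul_right l)
      have h3 := ha2.add h2
      simpa using h3
    refine ⟨?_, hmod, ?_⟩
    · calc a + M * l < M + M * l := by omega
        _ = M * (l + 1) := by ring
        _ ≤ M * L := Nat.mul_le_mul_left M hl
        _ = W := hL.symm
    · intro i
      refine Nat.Coprime.symm (Nat.Coprime.symm ?_)
      refine Nat.coprime_of_dvd fun p hp hp1 hp2 => ?_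
      by_cases hpD : p ∣ Dm
      · have h4 : a + M * l + h i ≡ c [MOD Dm] := by
          have h5 : h i ≡ 0 [MOD Dm] := (Nat.modEq_zero_iff_dvd).2 (hD i)
          simpa using hmod.add h5
        have h6 : p ∣ c := (h4.of_dvd hpD |>.dvd_iff dvd_rfl).1 hp1
        exact hp.one_lt.ne' (Nat.eq_one_of_dvd_coprimes hc h6 hpD)
      · have hpS : p ∈ S := by
          rw [hS, Finset.mem_filter]
          exact ⟨Nat.mem_primeFactors.2 ⟨hp, hp2, hW.ne'⟩, hpD⟩
        apply ha3 p hpS i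
        have h5 : p ∣ M * l := ((Finset.dvd_prod_of_mem (fun p => p) hpS).mul_left Dm).mul_right l
        have h6 : a + M * l + h i = (a + h i) + M * l := by ring
        rw [h6] at hp1
        exact (Nat.dvd_add_left h5).1 hp1
  · rintro ⟨l, a⟩ hx ⟨l', a'⟩ hx' heq
    simp only [Finset.coe_product, Set.mem_prod, Finset.mem_coe, Finset.mem_range, cls,
      Finset.mem_filter] at hx hx'
    simp only at heq
    have h2 : a % M = a' % M := by
      have := congrArg (· % M) heq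
      simpa [Nat.add_mul_mod_self_left] using this
    rw [Nat.mod_eq_of_lt hx.2.1, Nat.mod_eq_of_lt hx'.2.1] at h2
    subst h2
    have h3 : M * l = M * l' := by omega
    have h4 := Nat.eq_of_mul_eq_mul_left hM0 h3
    subst h4
    rfl

/-- number of forbidden classes modulo `p` -/
def nu (k p : ℕ) : ℕ := if p ≤ k then 1 else k

lemma nu_bound (h : Fin k → ℕ) (hs : ∀ p, p.Prime → p ≤ k → ∀ i, p ∣ h i) {p : ℕ}
    (hp : p.Prime) : (Finset.univ.image (fun i => (h i : ZMod p))).card ≤ nu k p := by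
  classical
  unfold nu
  split_ifs with hpk
  · have h1 : Finset.univ.image (fun i => (h i : ZMod p)) ⊆ {0} := by
      intro x hx
      obtain ⟨i, _, rfl⟩ := Finset.mem_image.1 hx
      rw [Finset.mem_singleton, ZMod.natCast_eq_zero_iff]
      exact hs p hp hpk i
    exact (Finset.card_le_card h1).trans (by simp)
  · exact Finset.card_image_le.trans (by simp)

lemma nu_le {p : ℕ} (hp : 1 ≤ p) : nu k p ≤ p := by
  unfold nu
  split_ifs with h
  · exact hp
  · omega

/-- local loss -/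
noncomputable def lossA (k p : ℕ) : ℝ := if k < p ∧ p ≤ 2 * k then 2 * k else 1
noncomputable def lossB (k p : ℕ) : ℝ := if 2 * k < p then 2 * (k:ℝ) ^ 2 * ((p:ℝ) ^ 2)⁻¹ else 0

lemma local_loss (hk : 1 ≤ k) {p : ℕ} (hp : 2 ≤ p) :
    (1 - (p:ℝ)⁻¹) ^ k ≤ lossA k p * Real.exp (lossB k p) * (1 - (nu k p : ℝ) / p) := by
  have hp2 : (2:ℝ) ≤ p := by exact_mod_cast hp
  have hp0 : (0:ℝ) < p := by linarith
  have hinv : (p:ℝ)⁻¹ ≤ 1 := by
    rw [inv_le_one₀ hp0]; linarith
  have hinv0 : 0 < (p:ℝ)⁻¹ := by positivity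
  have hk1 : (1:ℝ) ≤ k := by exact_mod_cast hk
  by_cases h1 : p ≤ k
  · have hA : lossA k p = 1 := by unfold lossA; rw [if_neg (by omega)]
    have hB : lossB k p = 0 := by unfold lossB; rw [if_neg (by omega)]
    have hn : nu k p = 1 := by unfold nu; rw [if_pos h1]
    rw [hA, hB, hn, Real.exp_zero, one_mul, one_mul, Nat.cast_one, one_div]
    exact pow_le_of_le_one (by linarith) (by linarith) (by omega)
  · by_cases h2 : p ≤ 2 * k
    · have hA : lossA k p = 2 * k := by unfold lossA; rw [if_pos (by omega)]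
      have hB : lossB k p = 0 := by unfold lossB; rw [if_neg (by omega)]
      have hn : nu k p = k := by unfold nu; rw [if_neg h1]
      rw [hA, hB, hn, Real.exp_zero, mul_one]
      have h3 : (1 - (p:ℝ)⁻¹) ^ k ≤ 1 := pow_le_one₀ (by linarith) (by linarith)
      refine h3.trans ?_
      have h4 : (k:ℝ) + 1 ≤ p := by exact_mod_cast (show k + 1 ≤ p by omega)
      have h5 : (p:ℝ) ≤ 2 * k := by exact_mod_cast h2
      have h6 : 2 * (k:ℝ) * (1 - k / p) = 2 * k * (p - k) / p := by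
        field_simp
      rw [h6, le_div_iff₀ hp0]
      nlinarith
    · have hA : lossA k p = 1 := by unfold lossA; rw [if_neg (by omega)]
      have hB : lossB k p = 2 * ((k:ℝ) / p) ^ 2 := by
        unfold lossB; rw [if_pos (by omega)]
        field_simp
      have hn : nu k p = k := by unfold nu; rw [if_neg h1]
      rw [hA, hB, hn, one_mul]
      set x := (k:ℝ) / p with hx
      have hx0 : 0 < x := by positivity
      have hx2 : x ≤ 1 / 2 := by
        rw [hx, div_le_div_iff₀ hp0 (by norm_num)]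
        have : (2 * k : ℝ) ≤ p := by exact_mod_cast (show 2 * k ≤ p by omega)
        linarith
      have h3 : (1 - (p:ℝ)⁻¹) ^ k ≤ Real.exp (-x) := by
        have h4 : 1 - (p:ℝ)⁻¹ ≤ Real.exp (-(p:ℝ)⁻¹) := Real.one_sub_le_exp_neg _
        refine (pow_le_pow_left₀ (by linarith) h4 k).trans (le_of_eq ?_)
        rw [← Real.exp_nat_mul]
        congr 1
        rw [hx]
        field_simp
      have h4 : Real.exp (-x - 2 * x ^ 2) ≤ 1 - x := by
        have h1x : 0 < 1 - x := by linarith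
        have h5 : 1 / (1 - x) ≤ Real.exp (x / (1 - x)) := by
          have := Real.add_one_le_exp (x / (1 - x))
          have h6 : x / (1 - x) + 1 = 1 / (1 - x) := by
            field_simp
            ring
          linarith
        have h6 : x / (1 - x) ≤ x + 2 * x ^ 2 := by
          rw [div_le_iff₀ h1x]
          nlinarith [sq_nonneg x, mul_nonneg (sq_nonneg x) (show 0 ≤ 1 - 2 * x by linarith)]
        have h7 : 1 / (1 - x) ≤ Real.exp (x + 2 * x ^ 2) := h5.trans (Real.exp_le_exp.2 h6)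
        have h8 : -x - 2 * x ^ 2 = -(x + 2 * x ^ 2) := by ring
        rw [h8, Real.exp_neg, inv_le_comm₀ (Real.exp_pos _) h1x, ← one_div]
        exact h7
      calc (1 - (p:ℝ)⁻¹) ^ k ≤ Real.exp (-x) := h3
        _ = Real.exp (2 * x ^ 2) * Real.exp (-x - 2 * x ^ 2) := by
            rw [← Real.exp_add]
            congr 1
            ring
        _ ≤ Real.exp (2 * x ^ 2) * (1 - x) :=
            mul_le_mul_of_nonneg_left h4 (Real.exp_pos _).le

lemma prod_lossA (hk : 1 ≤ k) (S : Finset ℕ) : ∏ p ∈ S, lossA k p ≤ (2 * (k:ℝ)) ^ k := by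
  have hk1 : (1:ℝ) ≤ k := by exact_mod_cast hk
  unfold lossA
  rw [← Finset.prod_filter, Finset.prod_const]
  refine pow_le_pow_right₀ (by linarith) ?_
  have h1 : S.filter (fun p => k < p ∧ p ≤ 2 * k) ⊆ Finset.Ioc k (2 * k) := by
    intro p hp
    exact Finset.mem_Ioc.2 (Finset.mem_filter.1 hp).2
  refine (Finset.card_le_card h1).trans ?_
  rw [Nat.card_Ioc]
  omega

lemma sum_lossB (hk : 1 ≤ k) (S : Finset ℕ) : ∑ p ∈ S, lossB k p ≤ k := by
  have hk1 : (1:ℝ) ≤ k := by exact_mod_cast hk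
  unfold lossB
  rw [← Finset.sum_filter, ← Finset.mul_sum]
  set n := max (2 * k) (S.sup id) with hn
  have h1 : S.filter (fun p => 2 * k < p) ⊆ Finset.Ioc (2 * k) n := by
    intro p hp
    rw [Finset.mem_filter] at hp
    refine Finset.mem_Ioc.2 ⟨hp.2, ?_⟩
    exact le_trans (Finset.le_sup (f := id) hp.1) (le_max_right _ _)
  have h2 : ∑ p ∈ S.filter (fun p => 2 * k < p), ((p:ℝ) ^ 2)⁻¹ ≤
      ∑ p ∈ Finset.Ioc (2 * k) n, ((p:ℝ) ^ 2)⁻¹ :=
    Finset.sum_le_sum_of_subset_of_nonneg h1 fun p _ _ => by positivity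
  have h3 := sum_Ioc_inv_sq_le_sub (α := ℝ) (k := 2 * k) (n := n) (by omega) (le_max_left _ _)
  have h4 : (0:ℝ) ≤ (n:ℝ)⁻¹ := by positivity
  have h5 : ∑ p ∈ S.filter (fun p => 2 * k < p), ((p:ℝ) ^ 2)⁻¹ ≤ (2 * (k:ℝ))⁻¹ := by
    push_cast at h3
    linarith
  calc 2 * (k:ℝ) ^ 2 * ∑ p ∈ S.filter (fun p => 2 * k < p), ((p:ℝ) ^ 2)⁻¹
      ≤ 2 * (k:ℝ) ^ 2 * (2 * (k:ℝ))⁻¹ := mul_le_mul_of_nonneg_left h5 (by positivity)
    _ = k := by field_simp

lemma prod_loss (hk : 1 ≤ k) (S : Finset ℕ) (hS : ∀ p ∈ S, 2 ≤ p) :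
    ∏ p ∈ S, (1 - (p:ℝ)⁻¹) ^ k ≤ (6 * (k:ℝ)) ^ k * ∏ p ∈ S, (1 - (nu k p : ℝ) / p) := by
  have hk1 : (1:ℝ) ≤ k := by exact_mod_cast hk
  have hnn : ∀ p ∈ S, 0 ≤ 1 - (nu k p : ℝ) / p := by
    intro p hp
    have hp0 : (0:ℝ) < p := by exact_mod_cast (show 0 < p by have := hS p hp; omega)
    rw [sub_nonneg, div_le_one hp0]
    exact_mod_cast nu_le (by have := hS p hp; omega)
  have h1 : ∏ p ∈ S, (1 - (p:ℝ)⁻¹) ^ k ≤
      ∏ p ∈ S, (lossA k p * Real.exp (lossB k p) * (1 - (nu k p : ℝ) / p)) := by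
    refine Finset.prod_le_prod (fun p hp => ?_) fun p hp => local_loss hk (hS p hp)
    have hp2 : (2:ℝ) ≤ p := by exact_mod_cast hS p hp
    have hinv : (p:ℝ)⁻¹ ≤ 1 := by
      rw [inv_le_one₀ (by linarith)]; linarith
    exact pow_nonneg (by linarith) k
  refine h1.trans ?_
  rw [Finset.prod_mul_distrib, Finset.prod_mul_distrib, ← Real.exp_sum]
  refine mul_le_mul_of_nonneg_right ?_ (Finset.prod_nonneg hnn)
  have h2 : Real.exp (∑ p ∈ S, lossB k p) ≤ 3 ^ k := by
    refine (Real.exp_le_exp.2 (sum_lossB hk S)).trans ?_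
    have h3 : Real.exp (k:ℝ) = Real.exp 1 ^ k := by
      rw [← Real.exp_nat_mul, mul_one]
    rw [h3]
    exact pow_le_pow_left₀ (Real.exp_pos _).le (by have := Real.exp_one_lt_d9; linarith) k
  calc (∏ p ∈ S, lossA k p) * Real.exp (∑ p ∈ S, lossB k p)
      ≤ (2 * (k:ℝ)) ^ k * 3 ^ k :=
        mul_le_mul (prod_lossA hk S) h2 (Real.exp_pos _).le (by positivity)
    _ = (6 * (k:ℝ)) ^ k := by
        rw [← mul_pow]
        congr 1
        ring

/-- **PP9.** -/
theorem classes_ge (hk : 1 ≤ k) {W Dm c : ℕ} (hW : 0 < W) (hDW : Dm ∣ W) (hc : c.Coprime Dm)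
    (h : Fin k → ℕ) (hD : ∀ i, Dm ∣ h i) (hs : ∀ p, p.Prime → p ≤ k → ∀ i, p ∣ h i) :
    (W:ℝ) * cW W ^ k ≤ Dm * (6 * (k:ℝ)) ^ k * ((adm h Dm c W).card : ℝ) := by
  classical
  have hD0 : 0 < Dm := Nat.pos_of_dvd_of_pos hDW hW
  have hW0 : (0:ℝ) < W := by exact_mod_cast hW
  have hDr : (0:ℝ) < Dm := by exact_mod_cast hD0
  set S := W.primeFactors.filter (fun p => ¬ p ∣ Dm) with hS
  have hSp : ∀ p ∈ S, p.Prime ∧ ¬ p ∣ Dm := fun p hp => by
    rw [hS, Finset.mem_filter] at hp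
    exact ⟨Nat.prime_of_mem_primeFactors hp.1, hp.2⟩
  have hSW : ∀ p ∈ S, p ∣ W := fun p hp => by
    rw [hS, Finset.mem_filter] at hp
    exact Nat.dvd_of_mem_primeFactors hp.1
  have hQW : (Dm * ∏ p ∈ S, p) ∣ W := by
    refine Nat.Coprime.mul_dvd_of_dvd_of_dvd ?_ hDW ?_
    · refine (Nat.Coprime.prod_left fun p hp => ?_).symm
      exact (Nat.Prime.coprime_iff_not_dvd (hSp p hp).1).2 (hSp p hp).2
    · refine Finset.prod_primes_dvd W (fun p hp => (hSp p hp).1.prime) hSW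
  obtain ⟨L, hL⟩ := hQW
  have h1 := adm_ge (c := c) hW hc h hD S hS L hL
  have h2 := cls_prod (c := c) hD0 h (nu k) S hSp (fun p hp => nu_bound h hs (hSp p hp).1)
  have h3 : (L:ℝ) * ∏ p ∈ S, ((p:ℝ) - nu k p) ≤ (adm h Dm c W).card := by
    have h4 : L * ∏ p ∈ S, (p - nu k p) ≤ (adm h Dm c W).card :=
      (Nat.mul_le_mul_left L h2).trans h1
    have h5 : ((L * ∏ p ∈ S, (p - nu k p) : ℕ) : ℝ) ≤ (adm h Dm c W).card := by
      exact_mod_cast h4
    push_cast at h5
    have h6 : ∏ p ∈ S, ((p - nu k p : ℕ) : ℝ) = ∏ p ∈ S, ((p:ℝ) - nu k p) := by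
      refine Finset.prod_congr rfl fun p hp => ?_
      rw [Nat.cast_sub (nu_le (hSp p hp).1.one_lt.le)]
    rw [h6] at h5
    exact h5
  have hcW : cW W = ∏ p ∈ W.primeFactors, (1 - (p:ℝ)⁻¹) := by
    unfold cW
    have := Nat.totient_eq_mul_prod_factors W
    have h4 : ((Nat.totient W : ℚ) : ℝ) = ((W * ∏ p ∈ W.primeFactors, (1 - (p:ℚ)⁻¹) : ℚ) : ℝ) := by
      rw [this]
    push_cast at h4
    rw [h4]
    field_simp
  have hfac : ∀ p ∈ W.primeFactors, 0 ≤ 1 - (p:ℝ)⁻¹ ∧ 1 - (p:ℝ)⁻¹ ≤ 1 := by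
    intro p hp
    have hp2 : (2:ℝ) ≤ p := by exact_mod_cast (Nat.prime_of_mem_primeFactors hp).two_le
    have h4 : (p:ℝ)⁻¹ ≤ 1 := by
      rw [inv_le_one₀ (by linarith)]; linarith
    have h5 : 0 < (p:ℝ)⁻¹ := by positivity
    exact ⟨by linarith, by linarith⟩
  have h4 : cW W ≤ ∏ p ∈ S, (1 - (p:ℝ)⁻¹) := by
    rw [hcW]
    rw [← Finset.prod_filter_mul_prod_filter_not W.primeFactors (fun p => ¬ p ∣ Dm)]
    refine mul_le_of_le_one_right ?_ ?_
    · exact Finset.prod_nonneg fun p hp => (hfac p (Finset.mem_filter.1 hp).1).1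
    · exact Finset.prod_le_one (fun p hp => (hfac p (Finset.mem_filter.1 hp).1).1)
        (fun p hp => (hfac p (Finset.mem_filter.1 hp).1).2)
  have h5 : cW W ^ k ≤ (6 * (k:ℝ)) ^ k * ∏ p ∈ S, (1 - (nu k p : ℝ) / p) := by
    refine (pow_le_pow_left₀ (cW_nonneg W) h4 k).trans ?_
    rw [← Finset.prod_pow]
    exact prod_loss hk S fun p hp => (hSp p hp).1.two_le
  have h6 : (W:ℝ) * ∏ p ∈ S, (1 - (nu k p : ℝ) / p) = Dm * (L * ∏ p ∈ S, ((p:ℝ) - nu k p)) := by
    have e1 : ∏ p ∈ S, ((p:ℝ) - nu k p) = (∏ p ∈ S, (p:ℝ)) * ∏ p ∈ S, (1 - (nu k p : ℝ) / p) := by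
      rw [← Finset.prod_mul_distrib]
      refine Finset.prod_congr rfl fun p hp => ?_
      have hp0 : (p:ℝ) ≠ 0 := by exact_mod_cast (hSp p hp).1.ne_zero
      field_simp
    rw [e1]
    have e2 : (W:ℝ) = (Dm * ∏ p ∈ S, (p:ℝ)) * L := by
      have := congrArg (Nat.cast (R := ℝ)) hL
      push_cast at this
      exact this
    rw [e2]
    ring
  calc (W:ℝ) * cW W ^ k ≤ W * ((6 * (k:ℝ)) ^ k * ∏ p ∈ S, (1 - (nu k p : ℝ) / p)) :=
        mul_le_mul_of_nonneg_left h5 hW0.le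
    _ = (6 * (k:ℝ)) ^ k * (W * ∏ p ∈ S, (1 - (nu k p : ℝ) / p)) := by ring
    _ = (6 * (k:ℝ)) ^ k * (Dm * (L * ∏ p ∈ S, ((p:ℝ) - nu k p))) := by rw [h6]
    _ ≤ (6 * (k:ℝ)) ^ k * (Dm * (adm h Dm c W).card) := by
        refine mul_le_mul_of_nonneg_left ?_ (by positivity)
        exact mul_le_mul_of_nonneg_left h3 hDr.le
    _ = _ := by ring

end Pool.Agent.PP
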